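import Pool.Agent.Y582.SS.Main

/-!
# Martin's axiom and strongly surjective sets of reals of arbitrary cardinality

`MartinAxiomCard κ` is Martin's axiom for at most `κ` dense sets, and `StronglySurjective X` says
that for every nonempty `K ⊆ X` there is a weakly order preserving surjection from `X` onto `K`.
The forcing language is explained in `Pool.Agent.Helper669.Forcing` and `Pool.Agent.W684.FM.Defs`.
-/

set_option autoImplicit false

namespace Pool.Agent.Results.MP_841ff5_lc.EveryCardinal

open Cardinal Pool.Agent.W684 Pool.Agent.Helper669.Forcing Pool.Agent.W684.FM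
open Pool.Agent.W866.SS (StronglySurjective)

/-- (1) For every infinite cardinal `κ`, Martin's axiom for `κ` dense sets implies that every set
`A` of at most `κ` reals is order isomorphic to a subset of a strongly surjective set of reals of
cardinality `κ`. (2) In particular Martin's axiom for `ℵ₁` dense sets implies that some uncountable
set of reals is strongly surjective. (3) Martin's axiom (for all `κ < 𝔠`) implies that for every
infinite cardinal `κ < 𝔠` there is a strongly surjective set of reals of cardinality `κ`, and that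
every set of less than `𝔠` reals is order isomorphic to a subset of a strongly surjective set of
less than `𝔠` reals. (4) The hypothesis of (1) can be forced for every `κ`: for every infinite set
`X` some forcing notion preserves all cardinals and forces Martin's axiom for `#X` dense sets. -/
theorem result :
    (∀ κ : Cardinal.{0}, ℵ₀ ≤ κ → MartinAxiomCard κ → ∀ A : Set ℝ, #A ≤ κ →
      ∃ X : Set ℝ, #X = κ ∧ StronglySurjective X ∧
        ∃ g : ℝ → ℝ, StrictMonoOn g A ∧ Set.MapsTo g A X) ∧
    (MartinAxiomAleph1 → ∃ X : Set ℝ, ¬ X.Countable ∧ StronglySurjective X) ∧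
    ((∀ κ < 𝔠, MartinAxiomCard κ) →
      (∀ κ : Cardinal.{0}, ℵ₀ ≤ κ → κ < 𝔠 → ∃ X : Set ℝ, #X = κ ∧ StronglySurjective X) ∧
      ∀ A : Set ℝ, #A < 𝔠 → ∃ X : Set ℝ, #X < 𝔠 ∧ StronglySurjective X ∧
        ∃ g : ℝ → ℝ, StrictMonoOn g A ∧ Set.MapsTo g A X) ∧
    (∀ (X : Type) [Infinite X], (∃ (P : Type) (_ : Preorder P), Nonempty P ∧ ∀ p : P,
      p ∈ CardinalsPreserved.{0, 0} P ∧ p ∈ OmegaOnePreserved P ∧ p ∈ MartinHolds P X) ∧
      (MartinFor X ↔ MartinAxiomCard #X)) := by
  refine ⟨fun κ hκ hMA A hA => Pool.Agent.Y582.SS.main hκ hMA A hA, fun hMA => ?_,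
    fun hMA => ⟨fun κ hκ hc => ?_, fun A hA => ?_⟩,
    fun X _ => ⟨exists_forcing X, martinFor_iff⟩⟩
  · obtain ⟨X, h1, h2, -⟩ := Pool.Agent.Y582.SS.main (Cardinal.aleph0_le_aleph 1)
      (martinAxiomAleph1_iff.1 hMA) ∅ (by simp)
    refine ⟨X, fun hc => ?_, h2⟩
    have := (Cardinal.le_aleph0_iff_set_countable).2 hc
    rw [h1] at this
    exact absurd this (not_le.2 Cardinal.aleph0_lt_aleph_one)
  · obtain ⟨X, h1, h2, -⟩ := Pool.Agent.Y582.SS.main hκ (hMA κ hc) ∅ (by simp)
    exact ⟨X, h1, h2⟩
  · have h1 : max ℵ₀ #A < 𝔠 := max_lt Cardinal.aleph0_lt_continuum hA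
    obtain ⟨X, h2, h3, h4⟩ := Pool.Agent.Y582.SS.main (le_max_left ℵ₀ #A) (hMA _ h1) A
      (le_max_right _ _)
    exact ⟨X, by rw [h2]; exact h1, h3, h4⟩

end Pool.Agent.Results.MP_841ff5_lc.EveryCardinal
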